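import Pool.Agent.Lib.H70H.K1
import Pool.Agent.Lib.H30D.C4

/-!
# H70N, file N: the complex of the vertex sets which are not connected and dominating

Theorem D' (helper63), the graph part: for a graph `G` with `m` edges on `n ≥ 2` vertices, cycles (mod 2) on sets with at
most `k` elements bound in the complex `{M : M lies in a disconnected set}` if `k + m + 4 ≤ 2 n`.
-/

set_option autoImplicit false
set_option linter.unusedSectionVars false

namespace H70N

open Finset H98P H98Z H98M H63F H30F H30D H70H

section gen

variable {E : Type*} [Fintype E] [DecidableEq E]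

/-- Deletion and link of a vertex, with dimensions. -/
theorem ack_vertex {k : ℕ} {K : Finset E → Prop} (hK : Dn K) (a : E)
    (h1 : ACk k fun s => K s ∧ a ∉ s)
    (h2 : ∀ l, l + 1 = k → ACk l fun s => K (insert a s) ∧ a ∉ s) : ACk k K := by
  rcases k with _ | k
  · intro z hz hb
    obtain ⟨c, hc, hcb⟩ := h1 z (fun s hs => by
      obtain ⟨q1, q2⟩ := hz s hs
      have q3 : s = ∅ := card_eq_zero.1 (Nat.le_zero.1 q2)
      subst q3
      exact ⟨⟨q1, notMem_empty a⟩, q2⟩) hb
    exact ⟨c, fun s hs => ⟨(hc s hs).1.1, (hc s hs).2⟩, hcb⟩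
  · exact ack_add hK a h1 (h2 k rfl)

end gen

section gr

variable {V : Type*} [Fintype V] [DecidableEq V]

/-- A subset of `X` which together with `Z` lies in a disconnected subset of `U`. -/
def Rx (G : Finset (Sym2 V)) (U X Z M : Finset V) : Prop :=
  M ⊆ X ∧ ∃ W, M ∪ Z ⊆ W ∧ W ⊆ U ∧ Disc W G

theorem rx_dn {G : Finset (Sym2 V)} {U X Z : Finset V} : Dn (Rx G U X Z) := by
  rintro s t hst ⟨h1, W, h2, h3, h4⟩
  exact ⟨hst.trans h1, W, (union_subset_union hst Subset.rfl).trans h2, h3, h4⟩

theorem rx_del {G : Finset (Sym2 V)} {U X Z : Finset V} {x : V} (s : Finset V) :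
    (Rx G U X Z s ∧ x ∉ s) ↔ Rx G U (X.erase x) Z s := by
  constructor
  · rintro ⟨⟨h1, h2⟩, h3⟩
    exact ⟨subset_erase.2 ⟨h1, h3⟩, h2⟩
  · rintro ⟨h1, h2⟩
    exact ⟨⟨(subset_erase.1 h1).1, h2⟩, (subset_erase.1 h1).2⟩

theorem rx_link {G : Finset (Sym2 V)} {U X Z : Finset V} {x : V} (hx : x ∈ X) (s : Finset V) :
    (Rx G U X Z (insert x s) ∧ x ∉ s) ↔ Rx G U (X.erase x) (insert x Z) s := by
  have e : insert x s ∪ Z = s ∪ insert x Z := by rw [insert_union, union_insert]
  constructor
  · rintro ⟨⟨h1, h2⟩, h3⟩
    rw [e] at h2
    exact ⟨subset_erase.2 ⟨(insert_subset_iff.1 h1).2, h3⟩, h2⟩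
  · rintro ⟨h1, h2⟩
    rw [← e] at h2
    exact ⟨⟨insert_subset hx (subset_erase.1 h1).1, h2⟩, (subset_erase.1 h1).2⟩

/-- Neighbours of `Z` can be removed from a disconnected set which contains `Z`. -/
theorem disc_drop {G : Finset (Sym2 V)} {Z W T : Finset V} (hZ : Z.Nonempty) (hn : ¬ Disc Z G)
    (hZW : Z ⊆ W) (hW : Disc W G) (hT : ∀ t ∈ T, t ∉ Z ∧ ∃ z ∈ Z, s(z, t) ∈ G) :
    Disc (W \ T) G := by
  obtain ⟨C, D, hD, hCD, hW, hZC, h⟩ := disc_part hZ hn hZW hW
  have hTD : ∀ d ∈ D, d ∉ T := by
    intro d hd ht
    obtain ⟨-, z, hz, hzt⟩ := hT d ht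
    exact h z (hZC hz) d hd hzt
  refine ⟨C \ T, D, ?_, hD, disjoint_of_subset_left sdiff_subset hCD, ?_,
    fun x hx y hy => h x (mem_sdiff.1 hx).1 y hy⟩
  · obtain ⟨z, hz⟩ := hZ
    exact ⟨z, mem_sdiff.2 ⟨hZC hz, fun ht => (hT z ht).1 hz⟩⟩
  · rw [← hW]
    ext v
    simp only [mem_union, mem_sdiff]
    constructor
    · rintro (⟨h1, h2⟩ | h1)
      · exact ⟨Or.inl h1, h2⟩
      · exact ⟨Or.inr h1, hTD v h1⟩
    · rintro ⟨h1 | h1, h2⟩
      · exact Or.inl ⟨h1, h2⟩
      · exact Or.inr h1

theorem rx_drop {G : Finset (Sym2 V)} {U X Z T : Finset V} (hZ : Z.Nonempty) (hn : ¬ Disc Z G)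
    (hT : ∀ t ∈ T, t ∉ Z ∧ ∃ z ∈ Z, s(z, t) ∈ G) (hTX : ∀ t ∈ T, t ∉ X) (s : Finset V) :
    Rx G U X Z s ↔ Rx G (U \ T) X Z s := by
  constructor
  · rintro ⟨h1, W, h2, h3, h4⟩
    refine ⟨h1, W \ T, ?_, sdiff_subset_sdiff h3 Subset.rfl,
      disc_drop hZ hn (subset_union_right.trans h2) h4 hT⟩
    intro v hv
    refine mem_sdiff.2 ⟨h2 hv, fun ht => ?_⟩
    rcases mem_union.1 hv with h5 | h5
    · exact hTX v ht (h1 h5)
    · exact (hT v ht).1 h5
  · rintro ⟨h1, W, h2, h3, h4⟩
    exact ⟨h1, W, h2, h3.trans sdiff_subset, h4⟩

/-- The number of neighbours of `x` in `A`. -/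
def nb (G : Finset (Sym2 V)) (x : V) (A : Finset V) : ℕ := (A.filter fun a => s(x, a) ∈ G).card

/-- The number of edges with both ends in `X`. -/
def eI (G : Finset (Sym2 V)) (X : Finset V) : ℕ := (G ∩ X.sym2).card

/-- The vertices of `X` with a neighbour in `Z`. -/
def sZ (G : Finset (Sym2 V)) (X Z : Finset V) : Finset V := X.filter fun a => ∃ z ∈ Z, s(z, a) ∈ G

/-- The number of edges in the sense of the claim on `R(X, Y, Z)`. -/
def mR (G : Finset (Sym2 V)) (X Y Z : Finset V) : ℕ :=
  eI G X + (sZ G X Z).card + ∑ x ∈ X, nb G x Y

theorem eI_erase {G : Finset (Sym2 V)} {X : Finset V} {x : V} (hx : x ∈ X) :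
    eI G (X.erase x) + nb G x (X.erase x) ≤ eI G X := by
  have hinj : Function.Injective fun a : V => s(x, a) := fun a b h => Sym2.congr_right.1 h
  have e1 : nb G x (X.erase x) =
      (((X.erase x).filter fun a => s(x, a) ∈ G).image fun a : V => s(x, a)).card :=
    (card_image_of_injective _ hinj).symm
  rw [e1]
  unfold eI
  rw [← card_union_of_disjoint]
  · refine card_le_card (union_subset ?_ ?_)
    · exact inter_subset_inter Subset.rfl (sym2_mono (erase_subset x X))
    · intro e he
      obtain ⟨a, ha, rfl⟩ := mem_image.1 he
      rw [mem_filter, mem_erase] at ha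
      exact mem_inter.2 ⟨ha.2, mk_mem_sym2_iff.2 ⟨hx, ha.1.2⟩⟩
  · refine disjoint_left.2 fun e h1 h2 => ?_
    obtain ⟨a, ha, rfl⟩ := mem_image.1 h2
    exact (mem_erase.1 (mk_mem_sym2_iff.1 (mem_inter.1 h1).2).1).1 rfl

theorem sZ_erase {G : Finset (Sym2 V)} {X Z : Finset V} {x : V} (hx : x ∈ sZ G X Z) :
    (sZ G (X.erase x) Z).card + 1 = (sZ G X Z).card := by
  have e1 : sZ G (X.erase x) Z = (sZ G X Z).erase x := by
    ext v
    simp only [sZ, mem_filter, mem_erase]
    tauto
  rw [e1, card_erase_add_one hx]

theorem sZ_insert {G : Finset (Sym2 V)} {X Z : Finset V} {x : V} :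
    (sZ G X (insert x Z)).card ≤ (sZ G X Z).card + nb G x X := by
  refine (card_le_card (t := sZ G X Z ∪ X.filter fun a => s(x, a) ∈ G) ?_).trans (card_union_le _ _)
  intro v hv
  simp only [sZ, mem_filter, mem_union, mem_insert] at hv ⊢
  obtain ⟨h1, z, h2 | h2, h3⟩ := hv
  · subst h2
    exact Or.inr ⟨h1, h3⟩
  · exact Or.inl ⟨h1, z, h2, h3⟩

theorem nb_mono {G : Finset (Sym2 V)} {x : V} {A B : Finset V} (h : A ⊆ B) :
    nb G x A ≤ nb G x B := card_le_card (filter_subset_filter _ h)

theorem nb_zero {G : Finset (Sym2 V)} {x : V} {A : Finset V} (h : nb G x A = 0) :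
    ∀ a ∈ A, s(x, a) ∉ G := by
  intro a ha hg
  have h1 : a ∈ A.filter fun a => s(x, a) ∈ G := mem_filter.2 ⟨ha, hg⟩
  rw [card_eq_zero.1 h] at h1
  exact notMem_empty a h1

theorem nb_lt {G : Finset (Sym2 V)} {x : V} {A : Finset V} (h : nb G x A < A.card) :
    ∃ a ∈ A, s(x, a) ∉ G := by
  by_contra hc
  push Not at hc
  have h1 : (A.filter fun a => s(x, a) ∈ G) = A := filter_true_of_mem hc
  unfold nb at h
  rw [h1] at h
  exact lt_irrefl _ h

/-- Claim R: `Z` connected, no edges between `Y` and `Z`. -/
theorem ack_R {G : Finset (Sym2 V)} (n : ℕ) : ∀ (X Y Z : Finset V) (k : ℕ), X.card ≤ n →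
    Disjoint X Y → Disjoint X Z → Disjoint Y Z → Z.Nonempty → ¬ Disc Z G → Y.Nonempty →
    X.Nonempty → (∀ y ∈ Y, ∀ z ∈ Z, s(z, y) ∉ G) → k + 2 + mR G X Y Z ≤ 2 * X.card + Y.card →
    ACk k (Rx G (X ∪ Y ∪ Z) X Z) := by
  induction n with
  | zero =>
    intro X Y Z k hc _ _ _ _ _ _ hX _ _
    exact absurd (card_pos.2 hX) (by omega)
  | succ n ih =>
    intro X Y Z k hc hXY hXZ hYZ hZ hn hY hX hyz hk
    by_cases hx : ∃ x ∈ X, ∃ z ∈ Z, s(z, x) ∈ G
    · obtain ⟨x, hxX, z, hz, hzx⟩ := hx
      have hxY : x ∉ Y := fun h => disjoint_left.1 hXY hxX h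
      have hxZ : x ∉ Z := fun h => disjoint_left.1 hXZ hxX h
      have hxs : x ∈ sZ G X Z := mem_filter.2 ⟨hxX, z, hz, hzx⟩
      have a1 := eI_erase (G := G) hxX
      have a2 := sZ_erase hxs
      have a3 : nb G x Y + ∑ v ∈ X.erase x, nb G v Y = ∑ v ∈ X, nb G v Y :=
        add_sum_erase X (fun v => nb G v Y) hxX
      have a4 : (X.erase x).card + 1 = X.card := card_erase_add_one hxX
      unfold mR at hk
      by_cases h0 : nb G x (X.erase x) + nb G x Y = 0
      · refine ack_of_ac k (H63H.ac_cone (a := x) ?_)
        rintro s ⟨h1, W, h2, h3, h4⟩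
        obtain ⟨C, D, hD, hCD, hW, hZC, h⟩ := disc_part hZ hn (subset_union_right.trans h2) h4
        have hxD : x ∉ D := fun hd => h z (hZC hz) x hd hzx
        refine ⟨insert_subset hxX h1, insert x W, ?_, insert_subset ?_ h3, insert x C, D,
          insert_nonempty x C, hD, disjoint_insert_left.2 ⟨hxD, hCD⟩, ?_, ?_⟩
        · rw [insert_union]
          exact insert_subset_insert x h2
        · exact mem_union_left _ (mem_union_left _ hxX)
        · rw [insert_union, hW]
        · intro u hu d hd
          rcases mem_insert.1 hu with hu | hu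
          · subst hu
            have h5 : d ∈ X ∪ Y ∪ Z := h3 (hW ▸ mem_union_right _ hd)
            have h6 : d ∉ Z := fun h7 => disjoint_left.1 hCD (hZC h7) hd
            have h7 : d ≠ u := fun h8 => hxD (h8 ▸ hd)
            rcases mem_union.1 h5 with h5 | h5
            · rcases mem_union.1 h5 with h5 | h5
              · exact nb_zero (A := X.erase u) (by omega) d (mem_erase.2 ⟨h7, h5⟩)
              · exact nb_zero (A := Y) (by omega) d h5
            · exact absurd h5 h6
          · exact h u hu d hd
      · by_cases h2 : (X.erase x).Nonempty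
        · refine ack_vertex rx_dn x ?_ ?_
          · -- deletion
            refine ack_congr (K := Rx G (X.erase x ∪ Y ∪ Z) (X.erase x) Z) (fun s => ?_)
              (ih (X.erase x) Y Z k (by omega) (disjoint_of_subset_left (erase_subset x X) hXY)
                (disjoint_of_subset_left (erase_subset x X) hXZ) hYZ hZ hn hY h2 hyz
                (by unfold mR; omega))
            rw [rx_del, rx_drop (U := X ∪ Y ∪ Z) (T := {x}) hZ hn (by
              intro t ht
              rw [mem_singleton] at ht
              subst ht
              exact ⟨hxZ, z, hz, hzx⟩) (by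
              intro t ht
              rw [mem_singleton] at ht
              subst ht
              exact notMem_erase t X)]
            have e : (X ∪ Y ∪ Z) \ {x} = X.erase x ∪ Y ∪ Z := by
              ext v
              simp only [mem_sdiff, mem_union, mem_singleton, mem_erase]
              constructor
              · tauto
              · rintro ((h5 | h5) | h5)
                · tauto
                · exact ⟨Or.inl (Or.inr h5), fun h6 => hxY (h6 ▸ h5)⟩
                · exact ⟨Or.inr h5, fun h6 => hxZ (h6 ▸ h5)⟩
            rw [e]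
          · -- link
            intro l hl
            have hn' : ¬ Disc (insert x Z) G := by
              intro hdz
              obtain ⟨C, D, hD, hCD, hW, hZC, h⟩ := disc_part hZ hn (subset_insert x Z) hdz
              obtain ⟨d, hdd⟩ := hD
              have h1 : d ∈ insert x Z := by
                rw [← hW]
                exact mem_union_right _ hdd
              rcases mem_insert.1 h1 with h2 | h2
              · exact h z (hZC hz) d hdd (h2 ▸ hzx)
              · exact disjoint_left.1 hCD (hZC h2) hdd
            obtain ⟨T, hT⟩ : ∃ T, T = Y.filter fun a => s(x, a) ∈ G := ⟨_, rfl⟩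
            have hTY : T ⊆ Y := hT ▸ filter_subset _ _
            have hTc : T.card = nb G x Y := by rw [hT]; rfl
            have e : (X ∪ Y ∪ Z) \ T = X.erase x ∪ (Y \ T) ∪ insert x Z := by
              ext v
              simp only [mem_sdiff, mem_union, mem_insert, mem_erase]
              constructor
              · rintro ⟨(h5 | h5) | h5, h6⟩
                · by_cases h7 : v = x
                  · exact Or.inr (Or.inl h7)
                  · exact Or.inl (Or.inl ⟨h7, h5⟩)
                · exact Or.inl (Or.inr ⟨h5, h6⟩)
                · exact Or.inr (Or.inr h5)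
              · rintro ((h5 | h5) | (h5 | h5))
                · exact ⟨Or.inl (Or.inl h5.2), fun h6 => disjoint_left.1 hXY h5.2 (hTY h6)⟩
                · exact ⟨Or.inl (Or.inr h5.1), h5.2⟩
                · subst h5
                  exact ⟨Or.inl (Or.inl hxX), fun h6 => hxY (hTY h6)⟩
                · exact ⟨Or.inr h5, fun h6 => disjoint_left.1 hYZ (hTY h6) h5⟩
            have key : ∀ s, (Rx G (X ∪ Y ∪ Z) X Z (insert x s) ∧ x ∉ s) ↔
                Rx G (X.erase x ∪ (Y \ T) ∪ insert x Z) (X.erase x) (insert x Z) s := by
              intro s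
              rw [rx_link hxX, rx_drop (U := X ∪ Y ∪ Z) (T := T) (insert_nonempty x Z) hn' (by
                intro t ht
                refine ⟨fun h5 => ?_, x, mem_insert_self x Z, ?_⟩
                · rcases mem_insert.1 h5 with h6 | h6
                  · exact hxY (h6 ▸ hTY ht)
                  · exact disjoint_left.1 hYZ (hTY ht) h6
                · rw [hT] at ht
                  exact (mem_filter.1 ht).2) (by
                intro t ht h5
                exact disjoint_left.1 hXY (mem_of_mem_erase h5) (hTY ht)), e]
            have d1 : Disjoint (X.erase x) (insert x Z) :=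
              disjoint_insert_right.2 ⟨notMem_erase x X,
                disjoint_of_subset_left (erase_subset x X) hXZ⟩
            by_cases hYT : (Y \ T).Nonempty
            · refine ack_congr (fun s => (key s).symm)
                (ih (X.erase x) (Y \ T) (insert x Z) l (by omega)
                  (disjoint_of_subset_left (erase_subset x X)
                    (disjoint_of_subset_right sdiff_subset hXY)) d1 ?_ (insert_nonempty x Z) hn'
                  hYT h2 ?_ ?_)
              · exact disjoint_insert_right.2 ⟨fun h5 => hxY (mem_sdiff.1 h5).1,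
                  disjoint_of_subset_left sdiff_subset hYZ⟩
              · intro y hy v hv
                rcases mem_insert.1 hv with h5 | h5
                · subst h5
                  intro h6
                  exact (mem_sdiff.1 hy).2 (hT ▸ mem_filter.2 ⟨(mem_sdiff.1 hy).1, h6⟩)
                · exact hyz y (mem_sdiff.1 hy).1 v h5
              · have b1 := sZ_insert (G := G) (X := X.erase x) (Z := Z) (x := x)
                have b2 : ∑ v ∈ X.erase x, nb G v (Y \ T) ≤ ∑ v ∈ X.erase x, nb G v Y :=
                  sum_le_sum fun v _ => nb_mono sdiff_subset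
                have b3 : (Y \ T).card + T.card = Y.card := card_sdiff_add_card_eq_card hTY
                unfold mR
                omega
            · have h5 : Y \ T = ∅ := not_nonempty_iff_eq_empty.1 hYT
              refine ack_of_ac l (ac_congr (fun s => (key s).symm) ?_)
              refine ac_congr (K := Rr G (X.erase x ∪ insert x Z) (insert x Z)) (fun s => ?_)
                (ac_R _ _ _ le_rfl subset_union_right (insert_nonempty x Z) hn')
              have h6 : (X.erase x ∪ insert x Z) \ insert x Z = X.erase x := by
                rw [union_sdiff_right]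
                exact sdiff_eq_self_of_disjoint d1
              unfold Rr Rx
              rw [h6, h5, union_empty]
        · -- `X = {x}`
          have h3 : X.erase x = ∅ := not_nonempty_iff_eq_empty.1 h2
          have h4 : nb G x Y < Y.card := by
            rw [h3] at a3 a4
            simp only [sum_empty, card_empty] at a3 a4
            omega
          obtain ⟨y, hy, hxy⟩ := nb_lt h4
          have h5 : X = {x} := by
            rw [← insert_erase hxX, h3]
            rfl
          refine ack_of_ac k (ac_congr (K := fun s => s ⊆ X) (fun s => ?_) (ac_simplex hX))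
          refine ⟨fun h6 => ⟨h6, insert y (insert x Z), ?_, ?_, {y}, insert x Z,
            singleton_nonempty y, insert_nonempty x Z, ?_, rfl, ?_⟩, fun h6 => h6.1⟩
          · intro v hv
            rcases mem_union.1 hv with h7 | h7
            · have h8 := h6 h7
              rw [h5, mem_singleton] at h8
              subst h8
              exact mem_insert_of_mem (mem_insert_self v Z)
            · exact mem_insert_of_mem (mem_insert_of_mem h7)
          · intro v hv
            rcases mem_insert.1 hv with h7 | h7
            · subst h7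
              exact mem_union_left _ (mem_union_right _ hy)
            · rcases mem_insert.1 h7 with h8 | h8
              · subst h8
                exact mem_union_left _ (mem_union_left _ hxX)
              · exact mem_union_right _ h8
          · refine disjoint_singleton_left.2 fun h7 => ?_
            rcases mem_insert.1 h7 with h8 | h8
            · exact hxY (h8 ▸ hy)
            · exact disjoint_left.1 hYZ hy h8
          · intro u hu v hv
            rw [mem_singleton] at hu
            subst hu
            rw [Sym2.eq_swap]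
            rcases mem_insert.1 hv with h8 | h8
            · subst h8
              exact hxy
            · exact hyz u hy v h8
    · push Not at hx
      refine ack_of_ac k (ac_congr (K := fun s => s ⊆ X) (fun s => ?_) (ac_simplex hX))
      refine ⟨fun h6 => ⟨h6, X ∪ Y ∪ Z, ?_, Subset.rfl, X ∪ Y, Z,
        hX.mono subset_union_left, hZ, disjoint_union_left.2 ⟨hXZ, hYZ⟩, rfl, ?_⟩, fun h6 => h6.1⟩
      · exact union_subset_union (h6.trans subset_union_left) Subset.rfl
      · intro u hu v hv
        rw [Sym2.eq_swap]
        rcases mem_union.1 hu with h7 | h7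
        · exact hx u h7 v hv
        · exact hyz u h7 v hv

/-- Claim N. -/
theorem ack_N' {G : Finset (Sym2 V)} (n : ℕ) : ∀ (X Y : Finset V) (k : ℕ), X.card ≤ n →
    Disjoint X Y → Y.Nonempty → X.Nonempty →
    k + 3 + (eI G X + ∑ x ∈ X, nb G x Y) ≤ 2 * X.card + Y.card →
    ACk k (Rx G (X ∪ Y) X ∅) := by
  induction n with
  | zero =>
    intro X Y k hc _ _ hX _
    exact absurd (card_pos.2 hX) (by omega)
  | succ n ih =>
    intro X Y k hc hXY hY hX hk
    by_cases hx : ∃ x ∈ X, ∃ y ∈ Y, s(x, y) ∈ G
    · obtain ⟨x, hxX, y, hy, hxy⟩ := hx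
      have hxY : x ∉ Y := fun h => disjoint_left.1 hXY hxX h
      have a1 := eI_erase (G := G) hxX
      have a3 : nb G x Y + ∑ v ∈ X.erase x, nb G v Y = ∑ v ∈ X, nb G v Y :=
        add_sum_erase X (fun v => nb G v Y) hxX
      have a4 : (X.erase x).card + 1 = X.card := card_erase_add_one hxX
      have a5 : 1 ≤ nb G x Y := card_pos.2 ⟨y, mem_filter.2 ⟨hy, hxy⟩⟩
      by_cases h2 : (X.erase x).Nonempty
      · refine ack_vertex rx_dn x ?_ ?_
        · -- deletion
          have e : X ∪ Y = X.erase x ∪ insert x Y := by
            ext v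
            simp only [mem_union, mem_insert, mem_erase]
            constructor
            · rintro (h5 | h5)
              · by_cases h7 : v = x
                · exact Or.inr (Or.inl h7)
                · exact Or.inl ⟨h7, h5⟩
              · exact Or.inr (Or.inr h5)
            · rintro (h5 | h5 | h5)
              · exact Or.inl h5.2
              · subst h5
                exact Or.inl hxX
              · exact Or.inr h5
          have c1 : ∑ v ∈ X.erase x, nb G v (insert x Y) ≤
              ∑ v ∈ X.erase x, nb G v Y + nb G x (X.erase x) := by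
            have c2 : nb G x (X.erase x) = ∑ v ∈ X.erase x, if s(x, v) ∈ G then 1 else 0 := by
              unfold nb
              rw [card_filter]
            rw [c2, ← sum_add_distrib]
            refine sum_le_sum fun v hv => ?_
            unfold nb
            rw [filter_insert]
            by_cases h5 : s(v, x) ∈ G
            · rw [if_pos h5, if_pos (by rw [Sym2.eq_swap]; exact h5)]
              exact card_insert_le _ _
            · rw [if_neg h5, if_neg (by rw [Sym2.eq_swap]; exact h5)]
              exact le_rfl
          have c3 : (insert x Y).card = Y.card + 1 := card_insert_of_notMem hxY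
          refine ack_congr (K := Rx G (X.erase x ∪ insert x Y) (X.erase x) ∅) (fun s => ?_)
            (ih (X.erase x) (insert x Y) k (by omega) ?_ (insert_nonempty x Y) h2 (by omega))
          · rw [rx_del, e]
          · exact disjoint_insert_right.2 ⟨notMem_erase x X,
              disjoint_of_subset_left (erase_subset x X) hXY⟩
        · -- link
          intro l hl
          have hn' : ¬ Disc ({x} : Finset V) G := not_disc_singleton x
          obtain ⟨T, hT⟩ : ∃ T, T = Y.filter fun a => s(x, a) ∈ G := ⟨_, rfl⟩
          have hTY : T ⊆ Y := hT ▸ filter_subset _ _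
          have hTc : T.card = nb G x Y := by rw [hT]; rfl
          have e : (X ∪ Y) \ T = X.erase x ∪ (Y \ T) ∪ {x} := by
            ext v
            simp only [mem_sdiff, mem_union, mem_singleton, mem_erase]
            constructor
            · rintro ⟨h5 | h5, h6⟩
              · by_cases h7 : v = x
                · exact Or.inr h7
                · exact Or.inl (Or.inl ⟨h7, h5⟩)
              · exact Or.inl (Or.inr ⟨h5, h6⟩)
            · rintro ((h5 | h5) | h5)
              · exact ⟨Or.inl h5.2, fun h6 => disjoint_left.1 hXY h5.2 (hTY h6)⟩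
              · exact ⟨Or.inr h5.1, h5.2⟩
              · subst h5
                exact ⟨Or.inl hxX, fun h6 => hxY (hTY h6)⟩
          have key : ∀ s, (Rx G (X ∪ Y) X ∅ (insert x s) ∧ x ∉ s) ↔
              Rx G (X.erase x ∪ (Y \ T) ∪ {x}) (X.erase x) {x} s := by
            intro s
            rw [rx_link hxX, insert_empty_eq, rx_drop (U := X ∪ Y) (T := T)
              (singleton_nonempty x) hn' (by
              intro t ht
              refine ⟨fun h5 => ?_, x, mem_singleton_self x, ?_⟩
              · rw [mem_singleton] at h5
                exact hxY (h5 ▸ hTY ht)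
              · rw [hT] at ht
                exact (mem_filter.1 ht).2) (by
              intro t ht h5
              exact disjoint_left.1 hXY (mem_of_mem_erase h5) (hTY ht)), e]
          have d1 : Disjoint (X.erase x) ({x} : Finset V) :=
            disjoint_singleton_right.2 (notMem_erase x X)
          by_cases hYT : (Y \ T).Nonempty
          · refine ack_congr (fun s => (key s).symm)
              (ack_R _ (X.erase x) (Y \ T) {x} l le_rfl
                (disjoint_of_subset_left (erase_subset x X)
                  (disjoint_of_subset_right sdiff_subset hXY)) d1 ?_ (singleton_nonempty x) hn'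
                hYT h2 ?_ ?_)
            · exact disjoint_singleton_right.2 fun h5 => hxY (mem_sdiff.1 h5).1
            · intro y' hy' v hv
              rw [mem_singleton] at hv
              subst hv
              intro h6
              exact (mem_sdiff.1 hy').2 (hT ▸ mem_filter.2 ⟨(mem_sdiff.1 hy').1, h6⟩)
            · have b1 : (sZ G (X.erase x) {x}).card ≤ nb G x (X.erase x) := by
                refine card_le_card fun v hv => ?_
                simp only [sZ, mem_filter, mem_singleton, exists_eq_left] at hv ⊢
                exact hv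
              have b2 : ∑ v ∈ X.erase x, nb G v (Y \ T) ≤ ∑ v ∈ X.erase x, nb G v Y :=
                sum_le_sum fun v _ => nb_mono sdiff_subset
              have b3 : (Y \ T).card + T.card = Y.card := card_sdiff_add_card_eq_card hTY
              unfold mR
              omega
          · have h5 : Y \ T = ∅ := not_nonempty_iff_eq_empty.1 hYT
            refine ack_of_ac l (ac_congr (fun s => (key s).symm) ?_)
            refine ac_congr (K := Rr G (X.erase x ∪ {x}) {x}) (fun s => ?_)
              (ac_R _ _ _ le_rfl subset_union_right (singleton_nonempty x) hn')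
            have h6 : (X.erase x ∪ {x}) \ {x} = X.erase x := by
              rw [union_sdiff_right]
              exact sdiff_eq_self_of_disjoint d1
            unfold Rr Rx
            rw [h6, h5, union_empty]
      · -- `X = {x}`
        have h3 : X.erase x = ∅ := not_nonempty_iff_eq_empty.1 h2
        have h4 : nb G x Y < Y.card := by
          rw [h3] at a3 a4
          simp only [sum_empty, card_empty] at a3 a4
          omega
        obtain ⟨y', hy', hxy'⟩ := nb_lt h4
        have h5 : X = {x} := by
          rw [← insert_erase hxX, h3]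
          rfl
        refine ack_of_ac k (ac_congr (K := fun s => s ⊆ X) (fun s => ?_) (ac_simplex hX))
        refine ⟨fun h6 => ⟨h6, {x} ∪ {y'}, ?_, ?_, {x}, {y'},
          singleton_nonempty x, singleton_nonempty y', ?_, rfl, ?_⟩, fun h6 => h6.1⟩
        · rw [union_empty, ← h5]
          exact h6.trans subset_union_left
        · exact union_subset_union (singleton_subset_iff.2 hxX) (singleton_subset_iff.2 hy')
        · exact disjoint_singleton.2 fun h7 => hxY (h7 ▸ hy')
        · intro u hu v hv
          rw [mem_singleton] at hu hv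
          subst hu
          subst hv
          exact hxy'
    · push Not at hx
      refine ack_of_ac k (ac_congr (K := fun s => s ⊆ X) (fun s => ?_) (ac_simplex hX))
      refine ⟨fun h6 => ⟨h6, X ∪ Y, ?_, Subset.rfl, X, Y, hX, hY, hXY, rfl, hx⟩, fun h6 => h6.1⟩
      rw [union_empty]
      exact h6.trans subset_union_left

/-- THEOREM D', graph part: cycles on sets with at most `k` elements bound in the complex of the sets which lie in a
disconnected set, if `k + |G| + 4 ≤ 2 |V|`. -/
theorem ack_N (G : Finset (Sym2 V)) (h2 : 2 ≤ Fintype.card V) {k : ℕ}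
    (hk : k + G.card + 4 ≤ 2 * Fintype.card V) :
    ACk k fun M : Finset V => ∃ W, M ⊆ W ∧ Disc W G := by
  have hne : 0 < Fintype.card V := by omega
  obtain ⟨x⟩ := Fintype.card_pos_iff.1 hne
  have hc : (univ.erase x : Finset V).card + 1 = Fintype.card V := by
    rw [card_erase_add_one (mem_univ x), card_univ]
  have hX : (univ.erase x : Finset V).Nonempty := card_pos.1 (by omega)
  have hG : eI G (univ.erase x) + nb G x (univ.erase x) ≤ G.card :=
    (eI_erase (mem_univ x)).trans (card_le_card inter_subset_left)
  refine ack_vertex (fun s t hst ⟨W, h3, h4⟩ => ⟨W, hst.trans h3, h4⟩) x ?_ ?_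
  · refine ack_congr (K := Rx G (univ.erase x ∪ {x}) (univ.erase x) ∅) (fun s => ?_)
      (ack_N' _ (univ.erase x) {x} k le_rfl (disjoint_singleton_right.2 (notMem_erase x univ))
        (singleton_nonempty x) hX ?_)
    · unfold Rx
      rw [union_empty]
      constructor
      · rintro ⟨h3, W, h4, -, h5⟩
        exact ⟨⟨W, h4, h5⟩, fun h6 => notMem_erase x univ (h3 h6)⟩
      · rintro ⟨⟨W, h4, h5⟩, h6⟩
        refine ⟨subset_erase.2 ⟨subset_univ s, h6⟩, W, h4, fun v _ => ?_, h5⟩
        by_cases h7 : v = x
        · exact mem_union_right _ (mem_singleton.2 h7)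
        · exact mem_union_left _ (mem_erase.2 ⟨h7, mem_univ v⟩)
    · have c2 : ∑ v ∈ univ.erase x, nb G v {x} ≤ nb G x (univ.erase x) := by
        have c3 : nb G x (univ.erase x) = ∑ v ∈ univ.erase x, if s(x, v) ∈ G then 1 else 0 := by
          unfold nb
          rw [card_filter]
        rw [c3]
        refine sum_le_sum fun v hv => ?_
        unfold nb
        rw [filter_singleton]
        by_cases h5 : s(v, x) ∈ G
        · rw [if_pos h5, if_pos (by rw [Sym2.eq_swap]; exact h5), card_singleton]
        · rw [if_neg h5, card_empty]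
          exact Nat.zero_le _
      rw [card_singleton]
      omega
  · intro l _
    refine ack_of_ac l (ac_congr (K := Rr G univ {x}) (fun s => ?_)
      (ac_R _ univ {x} le_rfl (subset_univ _) (singleton_nonempty x) (not_disc_singleton x)))
    constructor
    · rintro ⟨h1, W, h2, -, h4⟩
      refine ⟨⟨W, ?_, h4⟩, fun hs => ?_⟩
      · intro v hv
        apply h2
        simp only [mem_union, mem_insert, mem_singleton] at hv ⊢
        tauto
      · exact (mem_sdiff.1 (h1 hs)).2 (mem_singleton_self x)
    · rintro ⟨⟨W, h1, h2⟩, hzs⟩
      refine ⟨fun v hv => mem_sdiff.2 ⟨mem_univ v, fun h3 => ?_⟩, W, ?_, subset_univ _, h2⟩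
      · rw [mem_singleton] at h3
        exact hzs (h3 ▸ hv)
      · intro v hv
        apply h1
        simp only [mem_union, mem_insert, mem_singleton] at hv ⊢
        tauto

end gr

end H70N
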